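import Pool.Agent.H547Z.BDim.Cover

/-! Numerical bounds for the second moment. -/

namespace Pool.Agent.H547Z.BDim

open Finset

lemma geom_inj (ρ : ℝ) (h0 : 0 ≤ ρ) (h1 : ρ < 1) (T : Finset ℕ) (φ : ℕ → ℕ)
    (hφ : Set.InjOn φ T) : ∑ x ∈ T, ρ ^ φ x ≤ (1 - ρ)⁻¹ := by
  rw [← Finset.sum_image (f := fun j => ρ ^ j) hφ, ← tsum_geometric_of_lt_one h0 h1]
  exact (summable_geometric_of_lt_one h0 h1).sum_le_tsum _ (fun _ _ => by positivity)

lemma sum_dist (ρ : ℝ) (h0 : 0 ≤ ρ) (h1 : ρ < 1) (M s : ℕ) :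
    ∑ x ∈ range M, ρ ^ Nat.dist s x ≤ 2 * (1 - ρ)⁻¹ := by
  rw [← Finset.sum_filter_add_sum_filter_not (range M) (fun x => x ≤ s), two_mul]
  refine add_le_add (geom_inj ρ h0 h1 _ _ ?_) (geom_inj ρ h0 h1 _ _ ?_)
  · intro x hx y hy hxy
    simp only [coe_filter, Set.mem_ofPred_eq] at hx hy
    unfold Nat.dist at hxy
    omega
  · intro x hx y hy hxy
    simp only [coe_filter, Set.mem_ofPred_eq] at hx hy
    unfold Nat.dist at hxy
    omega

lemma abs_eq_dist (a b : ℕ) : |(a : ℝ) - b| = (Nat.dist a b : ℕ) := by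
  rcases le_total a b with h | h
  · have : (a : ℝ) ≤ b := by exact_mod_cast h
    rw [Nat.dist_eq_sub_of_le h, Nat.cast_sub h, abs_sub_comm, abs_of_nonneg (by linarith)]
  · have : (b : ℝ) ≤ a := by exact_mod_cast h
    rw [Nat.dist_eq_sub_of_le_right h, Nat.cast_sub h, abs_of_nonneg (by linarith)]

lemma lam_le' (M k : ℕ) (hk : 0 < k) (hkM : k ≤ M) : lam M k / (M : ℝ) ^ 2 ≤ 4 / k := by
  have hk' : (0 : ℝ) < k := by exact_mod_cast hk
  have hkM' : (k : ℝ) ≤ M := by exact_mod_cast hkM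
  have hM : (0 : ℝ) < M := by linarith
  set ρ := Real.exp (-((k : ℝ) / M)) with hρ
  have hx : (0 : ℝ) < k / M := by positivity
  have h0 : 0 < ρ := Real.exp_pos _
  have h1 : ρ < 1 := by rw [hρ, Real.exp_lt_one_iff]; linarith
  have h2 : (1 - ρ)⁻¹ ≤ 2 * M / k := by
    have h3 : ρ * (k / M + 1) ≤ 1 := by
      have := Real.add_one_le_exp ((k : ℝ) / M)
      calc ρ * (k / M + 1) ≤ ρ * Real.exp (k / M) := by gcongr
        _ = 1 := by rw [hρ, ← Real.exp_add]; simp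
    have h4 : (k : ℝ) / M ≤ 1 := by rw [div_le_one hM]; exact hkM'
    have h5 : 2 * (M : ℝ) / k = ((k : ℝ) / M / 2)⁻¹ := by field_simp
    rw [h5]
    refine inv_anti₀ (by positivity) ?_
    nlinarith
  have h6 : ∀ s s' : Fin M, mu M s s' ^ k ≤ ρ ^ Nat.dist s s' := by
    intro s s'
    have h7 : mu M s s' ≤ Real.exp (-((Nat.dist s s' : ℕ) / M)) := by
      have := Real.add_one_le_exp (-(((Nat.dist s s' : ℕ) : ℝ) / M))
      unfold mu
      rw [abs_eq_dist]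
      linarith
    calc mu M s s' ^ k ≤ Real.exp (-((Nat.dist s s' : ℕ) / M)) ^ k :=
          pow_le_pow_left₀ (mu_nonneg _ _ _) h7 _
      _ = ρ ^ Nat.dist s s' := by
          rw [hρ, ← Real.exp_nat_mul, ← Real.exp_nat_mul]; congr 1; ring
  have h8 : lam M k ≤ M * (2 * (2 * M / k)) := by
    rw [lam, Fintype.sum_prod_type]
    calc ∑ s : Fin M, ∑ s' : Fin M, mu M s s' ^ k ≤ ∑ _s : Fin M, (2 * (2 * (M : ℝ) / k)) := by
          refine Finset.sum_le_sum fun s _ => ?_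
          calc ∑ s' : Fin M, mu M s s' ^ k ≤ ∑ s' : Fin M, ρ ^ Nat.dist s s' :=
                Finset.sum_le_sum fun s' _ => h6 s s'
            _ = ∑ x ∈ range M, ρ ^ Nat.dist s x :=
                Fin.sum_univ_eq_sum_range (fun x => ρ ^ Nat.dist s x) M
            _ ≤ 2 * (1 - ρ)⁻¹ := sum_dist ρ h0.le h1 M s
            _ ≤ _ := by gcongr
      _ = _ := by simp
  rw [div_le_iff₀ (by positivity)]
  calc lam M k ≤ _ := h8
    _ = 4 / k * (M : ℝ) ^ 2 := by ring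

lemma binom_sum (n : ℕ) (x : ℝ) :
    ∑ k ∈ range (n + 1), (n.choose k : ℝ) * x ^ k = (1 + x) ^ n := by
  rw [add_comm 1 x, add_pow]
  simp [mul_comm]

lemma SS_le (n d K : ℕ) (hn : 0 < n) (hK : 0 < K) :
    SS n d n ≤ K * (n : ℝ) ^ K + (5 / 4) ^ n * 4 ^ (n / 4) * (4 / K) ^ d + 2 ^ n * (16 / n) ^ d := by
  have hn' : (1 : ℝ) ≤ n := by exact_mod_cast hn
  have hK' : (0 : ℝ) < K := by exact_mod_cast hK
  have key : ∀ k ∈ range (n + 1), (n.choose k : ℝ) * (lam n k / (n : ℝ) ^ 2) ^ d ≤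
      (if k ∈ range K then (n : ℝ) ^ K else 0) +
        (n.choose k : ℝ) * (1 / 4) ^ k * (4 ^ (n / 4) * (4 / K) ^ d) +
        (n.choose k : ℝ) * 1 ^ k * (16 / n) ^ d := by
    intro k hk
    have hkn : k ≤ n := by simp at hk; omega
    have hl0 : 0 ≤ lam n k / (n : ℝ) ^ 2 := by have := lam_nonneg n k; positivity
    have a2 : 0 ≤ (n.choose k : ℝ) * (1 / 4) ^ k * (4 ^ (n / 4) * (4 / K) ^ d) := by positivity
    have a3 : 0 ≤ (n.choose k : ℝ) * 1 ^ k * (16 / n) ^ d := by positivity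
    by_cases h1 : k < K
    · have b1 : (lam n k / (n : ℝ) ^ 2) ^ d ≤ 1 := by
        refine pow_le_one₀ hl0 ?_
        rw [div_le_one (by positivity)]
        exact lam_le n k
      have b2 : (n.choose k : ℝ) ≤ (n : ℝ) ^ K := by
        calc (n.choose k : ℝ) ≤ (n : ℝ) ^ k := by exact_mod_cast Nat.choose_le_pow n k
          _ ≤ (n : ℝ) ^ K := pow_le_pow_right₀ hn' h1.le
      have b3 : (n.choose k : ℝ) * (lam n k / (n : ℝ) ^ 2) ^ d ≤ (n : ℝ) ^ K * 1 := by gcongr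
      rw [if_pos (mem_range.2 h1)]
      linarith
    · rw [if_neg (by simpa using h1)]
      have hk0 : 0 < k := by omega
      have hk0' : (0 : ℝ) < k := by exact_mod_cast hk0
      have hl := lam_le' n k hk0 hkn
      by_cases h2 : k ≤ n / 4
      · have hKk : (K : ℝ) ≤ k := by exact_mod_cast not_lt.1 h1
        have b1 : lam n k / (n : ℝ) ^ 2 ≤ 4 / K := hl.trans (by gcongr)
        have b2 : (1 : ℝ) ≤ (1 / 4) ^ k * 4 ^ (n / 4) := by
          rw [one_div, inv_pow, inv_mul_eq_div, one_le_div (by positivity)]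
          exact pow_le_pow_right₀ (by norm_num) h2
        have b3 : (n.choose k : ℝ) * (lam n k / (n : ℝ) ^ 2) ^ d ≤
            (n.choose k : ℝ) * (((1 / 4) ^ k * 4 ^ (n / 4)) * (4 / K) ^ d) := by
          gcongr
          calc (lam n k / (n : ℝ) ^ 2) ^ d ≤ 1 * (4 / K) ^ d := by rw [one_mul]; gcongr
            _ ≤ _ := by gcongr
        nlinarith
      · have hnk : (n : ℝ) ≤ 4 * k := by
          have : n ≤ 4 * k := by omega
          exact_mod_cast this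
        have b1 : lam n k / (n : ℝ) ^ 2 ≤ 16 / n := by
          refine hl.trans ?_
          rw [div_le_div_iff₀ hk0' (by linarith)]
          linarith
        have b3 : (n.choose k : ℝ) * (lam n k / (n : ℝ) ^ 2) ^ d ≤
            (n.choose k : ℝ) * (16 / n) ^ d := by gcongr
        rw [one_pow, mul_one]
        linarith
  refine (Finset.sum_le_sum key).trans ?_
  rw [Finset.sum_add_distrib, Finset.sum_add_distrib, ← Finset.sum_mul, ← Finset.sum_mul,
    binom_sum, binom_sum, Finset.sum_ite_mem]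
  have c1 : ∑ _k ∈ range (n + 1) ∩ range K, (n : ℝ) ^ K ≤ K * (n : ℝ) ^ K := by
    rw [Finset.sum_const, nsmul_eq_mul]
    have : (range (n + 1) ∩ range K).card ≤ K := by
      simp
    gcongr
  rw [show (1 : ℝ) + 1 / 4 = 5 / 4 by norm_num, show (1 : ℝ) + 1 = 2 by norm_num]
  linarith

lemma SS_le2 (n d p q : ℕ) (hp : 4 ≤ p) (h1 : 2 ^ p ≤ n) (h2 : n < 2 ^ (p + 1))
    (hd : n ≤ (p - 4) * d) (hq : 5 * n ≤ 6 * (q * d)) :
    ((n : ℝ) + 1) * SS n d n ≤ 2 ^ ((p + 2) * 2 ^ (q + 2) + p + 3) := by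
  have hn : 0 < n := lt_of_lt_of_le (by positivity) h1
  have h := SS_le n d (2 ^ (q + 2)) hn (by positivity)
  set K := 2 ^ (q + 2) with hK
  have a1 : (K : ℝ) * (n : ℝ) ^ K ≤ 2 ^ ((p + 2) * K) := by
    have b1 : (K : ℝ) ≤ 2 ^ K := by exact_mod_cast (Nat.lt_two_pow_self (n := K)).le
    have b2 : (n : ℝ) ≤ 2 ^ (p + 1) := by exact_mod_cast h2.le
    calc (K : ℝ) * (n : ℝ) ^ K ≤ 2 ^ K * (2 ^ (p + 1)) ^ K := by gcongr
      _ = _ := by rw [← pow_mul, ← pow_add]; congr 1; ring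
  have a2 : (5 / 4 : ℝ) ^ n * 4 ^ (n / 4) * (4 / (K : ℝ)) ^ d ≤ 1 := by
    have b1 : (4 / (K : ℝ)) = (2 ^ q)⁻¹ := by
      rw [hK]; push_cast; field_simp; ring
    rw [b1, inv_pow, ← pow_mul, mul_inv_le_iff₀ (by positivity), one_mul]
    refine le_of_pow_le_pow_left₀ (n := 6) (by norm_num) (by positivity) ?_
    have b2 : ((5 / 4 : ℝ) ^ n) ^ 6 ≤ 2 ^ (2 * n) := by
      rw [← pow_mul, mul_comm n 6, pow_mul, pow_mul]
      gcongr; norm_num
    have b3 : ((4 : ℝ) ^ (n / 4)) ^ 6 ≤ 2 ^ (3 * n) := by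
      rw [show (4 : ℝ) = 2 ^ 2 by norm_num, ← pow_mul, ← pow_mul]
      exact pow_le_pow_right₀ (by norm_num) (by omega)
    calc ((5 / 4 : ℝ) ^ n * 4 ^ (n / 4)) ^ 6 ≤ 2 ^ (2 * n) * 2 ^ (3 * n) := by
          rw [mul_pow]; gcongr
      _ ≤ _ := by
          rw [← pow_add, ← pow_mul]
          exact pow_le_pow_right₀ (by norm_num) (by omega)
  have a3 : (2 : ℝ) ^ n * (16 / (n : ℝ)) ^ d ≤ 1 := by
    have b0 : (2 : ℝ) ^ p ≤ n := by exact_mod_cast h1
    have b1 : (16 / (n : ℝ)) ≤ (2 ^ (p - 4))⁻¹ := by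
      have : (2 : ℝ) ^ p = 16 * 2 ^ (p - 4) := by
        conv_lhs => rw [show p = 4 + (p - 4) by omega, pow_add]
        norm_num
      rw [div_le_iff₀ (by exact_mod_cast hn), inv_mul_eq_div, le_div_iff₀ (by positivity)]
      linarith
    calc (2 : ℝ) ^ n * (16 / (n : ℝ)) ^ d ≤ 2 ^ n * ((2 ^ (p - 4))⁻¹) ^ d := by gcongr
      _ ≤ 1 := by
          rw [inv_pow, ← pow_mul, mul_inv_le_iff₀ (by positivity), one_mul]
          exact pow_le_pow_right₀ (by norm_num) hd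
  have a4 : (1 : ℝ) ≤ 2 ^ ((p + 2) * K) := one_le_pow₀ (by norm_num)
  have a5 : SS n d n ≤ 4 * 2 ^ ((p + 2) * K) := by linarith
  have a6 : (n : ℝ) + 1 ≤ 2 ^ (p + 1) := by exact_mod_cast h2
  have a7 := one_le_SS n d n hn
  calc ((n : ℝ) + 1) * SS n d n ≤ 2 ^ (p + 1) * (4 * 2 ^ ((p + 2) * K)) := by gcongr
    _ = _ := by ring

lemma cube_le (r : ℕ) : (r + 1) ^ 3 ≤ 8 * 2 ^ r := by
  induction r with
  | zero => norm_num
  | succ r ih =>
    rcases Nat.lt_or_ge r 3 with h | h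
    · interval_cases r <;> norm_num
    · have : (r + 1 + 1) ^ 3 ≤ 2 * (r + 1) ^ 3 := by
        obtain ⟨s, rfl⟩ := Nat.exists_eq_add_of_le h
        ring_nf; nlinarith [Nat.zero_le s, Nat.zero_le (s ^ 2), Nat.zero_le (s ^ 3)]
      rw [pow_succ 2 r]; omega

/-- every sign vector on an `n`-set is a product of `D` threshold vectors of fixed chains -/
def Cov (n D : ℕ) : Prop :=
  ∀ (β : Type) [Fintype β] [DecidableEq β], Fintype.card β = n →
    ∃ h : Fin D → β → ℕ, ∀ g : β → ℤˣ, ∃ t, psi h t = g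

lemma cov_of (n d k : ℕ) (hn : 0 < n) (hk : ((n : ℝ) + 1) * SS n d n ≤ 2 ^ k) : Cov n (d + k) := by
  intro β _ _ hβ
  exact cover n d k hn (by rw [hβ]; exact hk)

theorem cover_bound (n : ℕ) (hn : 2 ≤ n) : ∃ D : ℕ, Cov n D ∧
    ((D + 3 * (Nat.log 2 n + 2) : ℕ) : ℝ) ≤
      n / Real.logb 2 n + 100000 * n / (Real.logb 2 n) ^ 2 := by
  set p := Nat.log 2 n with hp
  set L := Real.logb 2 n with hL
  have h1 : 2 ^ p ≤ n := Nat.pow_log_le_self 2 (by omega)
  have h2 : n < 2 ^ (p + 1) := Nat.lt_pow_succ_log_self (by norm_num) n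
  have hn' : (2 : ℝ) ≤ n := by exact_mod_cast hn
  have hL1 : 1 ≤ L := by
    rw [hL, Real.le_logb_iff_rpow_le (by norm_num) (by linarith)]; simpa using hn'
  have hL2 : L ≤ p + 1 := by
    rw [hL, Real.logb_le_iff_le_rpow (by norm_num) (by linarith)]
    have : (n : ℝ) ≤ 2 ^ (p + 1) := by exact_mod_cast h2.le
    rw [← Real.rpow_natCast] at this
    simpa using this
  rcases Nat.lt_or_ge p 8 with hp8 | hp8
  · refine ⟨0 + (p + 1 + n), cov_of n 0 _ (by omega) ?_, ?_⟩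
    · have a1 : SS n 0 n = 2 ^ n := by
        have := binom_sum n 1
        simp only [one_pow] at this
        simp only [SS, pow_zero]
        rw [this]; norm_num
      have a6 : (n : ℝ) + 1 ≤ 2 ^ (p + 1) := by exact_mod_cast h2
      rw [a1, pow_add]
      gcongr
    · have a1 : 2 ^ (p + 1) ≤ 2 ^ 8 := Nat.pow_le_pow_right (by norm_num) (by omega)
      have a2 : ((0 + (p + 1 + n) + 3 * (p + 2) : ℕ) : ℝ) ≤ 300 := by
        have : 0 + (p + 1 + n) + 3 * (p + 2) ≤ 300 := by omega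
        exact_mod_cast this
      have a3 : (p : ℝ) + 1 ≤ 8 := by exact_mod_cast hp8
      have a4 : (300 : ℝ) ≤ 100000 * n / L ^ 2 := by
        rw [le_div_iff₀ (by positivity)]
        nlinarith
      have a5 : (0 : ℝ) ≤ n / L := by positivity
      linarith
  · set d := n / (p - 4) + 1 with hd
    set q := 5 * p / 6 + 1 with hq
    have b1 : n ≤ (p - 4) * d := by
      have := Nat.lt_mul_div_succ n (show 0 < p - 4 by omega)
      exact this.le
    have b2 : 5 * n ≤ 6 * (q * d) := by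
      have : 5 * (p - 4) ≤ 6 * q := by omega
      calc 5 * n ≤ 5 * ((p - 4) * d) := by omega
        _ = 5 * (p - 4) * d := by ring
        _ ≤ 6 * q * d := by gcongr
        _ = _ := by ring
    refine ⟨d + ((p + 2) * 2 ^ (q + 2) + p + 3),
      cov_of n d _ (by omega) (SS_le2 n d p q (by omega) h1 h2 b1 b2), ?_⟩
    set E := (p + 2) * 2 ^ (q + 2) + p + 3 + 3 * (p + 2) + 1 with hE
    have b3 : E * (p + 1) ^ 2 ≤ 62208 * n := by
      have c0 : 1 ≤ 2 ^ q := Nat.one_le_two_pow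
      have c1 : E ≤ 18 * (p + 1) * 2 ^ q := by
        rw [hE, pow_add]; nlinarith
      have c2 : (p + 1) ^ 3 ≤ 1728 * 2 ^ (p / 6) := by
        have := cube_le (p / 6)
        calc (p + 1) ^ 3 ≤ (6 * (p / 6 + 1)) ^ 3 := by gcongr; omega
          _ = 216 * (p / 6 + 1) ^ 3 := by ring
          _ ≤ _ := by omega
      have c3 : 2 ^ (p / 6) * 2 ^ q ≤ 2 * n := by
        rw [← pow_add]
        calc 2 ^ (p / 6 + q) ≤ 2 ^ (p + 1) := Nat.pow_le_pow_right (by norm_num) (by omega)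
          _ ≤ _ := by rw [pow_succ]; omega
      calc E * (p + 1) ^ 2 ≤ 18 * (p + 1) * 2 ^ q * (p + 1) ^ 2 := by gcongr
        _ = 18 * (p + 1) ^ 3 * 2 ^ q := by ring
        _ ≤ 18 * (1728 * 2 ^ (p / 6)) * 2 ^ q := by gcongr
        _ = 18 * 1728 * (2 ^ (p / 6) * 2 ^ q) := by ring
        _ ≤ _ := by omega
    have b4 : (E : ℝ) ≤ 62208 * n / L ^ 2 := by
      rw [le_div_iff₀ (by positivity)]
      have : (E : ℝ) * (p + 1) ^ 2 ≤ 62208 * n := by exact_mod_cast b3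
      calc (E : ℝ) * L ^ 2 ≤ E * (p + 1) ^ 2 := by gcongr
        _ ≤ _ := this
    have b5 : ((n / (p - 4) : ℕ) : ℝ) ≤ n / L + 20 * n / L ^ 2 := by
      have c1 : (8 : ℝ) ≤ p := by exact_mod_cast hp8
      refine Nat.cast_div_le.trans ?_
      rw [Nat.cast_sub (by omega), div_add_div _ _ (by positivity) (by positivity),
        div_le_div_iff₀ (by push_cast; linarith) (by positivity)]
      push_cast
      have c2 : L ^ 2 ≤ (L + 20) * (p - 4) := by nlinarith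
      have c3 : (0 : ℝ) ≤ n * L := by positivity
      nlinarith [mul_le_mul_of_nonneg_left c2 c3]
    have b6 : ((d + ((p + 2) * 2 ^ (q + 2) + p + 3) + 3 * (p + 2) : ℕ) : ℝ) =
        ((n / (p - 4) : ℕ) : ℝ) + E := by
      rw [← Nat.cast_add]; congr 1; omega
    have b7 : (0 : ℝ) ≤ n / L ^ 2 := by positivity
    rw [b6]
    rw [mul_div_assoc] at b4 b5 ⊢
    linarith

end Pool.Agent.H547Z.BDim
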