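import Mathlib

/-! Covering the cube of sign vectors by products of threshold vectors. -/

namespace Pool.Agent.H547Z.BDim

open Finset

/-- sign of a threshold comparison -/
def sg (u t : ℕ) : ℤˣ := if u < t then -1 else 1

/-- the product of threshold vectors -/
def psi {β : Type} {d : ℕ} (h : Fin d → β → ℕ) (t : Fin d → ℕ) : β → ℤˣ :=
  fun b => ∏ i, sg (h i b) (t i)

open Classical in
/-- the sign vectors which are not a product of threshold vectors -/
noncomputable def unc {β : Type} [Fintype β] [DecidableEq β] {d : ℕ} (h : Fin d → β → ℕ) :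
    Finset (β → ℤˣ) := univ.filter fun g => ¬ ∃ t : Fin d → ℕ, psi h t = g

lemma mem_unc {β : Type} [Fintype β] [DecidableEq β] {d : ℕ} (h : Fin d → β → ℕ) (g : β → ℤˣ) :
    g ∈ unc h ↔ ¬ ∃ t : Fin d → ℕ, psi h t = g := by
  simp [unc]

lemma psi_cons {β : Type} {d : ℕ} (h : Fin d → β → ℕ) (t : Fin d → ℕ) (h0 : β → ℕ) (t0 : ℕ) :
    psi (Fin.cons h0 h : Fin (d + 1) → β → ℕ) (Fin.cons t0 t : Fin (d + 1) → ℕ) =
      (fun b => sg (h0 b) t0) * psi h t := by
  funext b
  simp [psi, Fin.prod_univ_succ]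

lemma exists_shift {G : Type} [CommGroup G] [Fintype G] [DecidableEq G] (U : Finset G) :
    ∃ v : G, ((U.filter fun g => v * g ∈ U).card : ℝ) ≤ (U.card : ℝ) ^ 2 / Fintype.card G := by
  have hsum : ∑ v : G, ((U.filter fun g => v * g ∈ U).card : ℝ) = (U.card : ℝ) ^ 2 := by
    have h1 : ∀ v : G, ((U.filter fun g => v * g ∈ U).card : ℝ) =
        ∑ g ∈ U, if v * g ∈ U then (1 : ℝ) else 0 := by
      intro v
      rw [Finset.card_filter]
      push_cast
      rfl
    simp_rw [h1]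
    rw [Finset.sum_comm]
    have h2 : ∀ g : G, ∑ v : G, (if v * g ∈ U then (1 : ℝ) else 0) = U.card := by
      intro g
      rw [Fintype.sum_equiv (Equiv.mulRight g) (fun v => if v * g ∈ U then (1 : ℝ) else 0)
        (fun w => if w ∈ U then (1 : ℝ) else 0) (fun v => rfl)]
      simp
    simp_rw [h2]
    simp [sq]
  by_contra hcon
  push Not at hcon
  have hpos : (0 : ℝ) < Fintype.card G := by exact_mod_cast Fintype.card_pos
  have := Finset.sum_lt_sum_of_nonempty (s := (univ : Finset G)) univ_nonempty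
    (fun v _ => hcon v)
  rw [hsum, Finset.sum_const, card_univ, nsmul_eq_mul, mul_div_cancel₀ _ hpos.ne'] at this
  exact lt_irrefl _ this

lemma step {β : Type} [Fintype β] [DecidableEq β] {d : ℕ} (h : Fin d → β → ℕ) :
    ∃ h' : Fin (d + 1) → β → ℕ,
      ((unc h').card : ℝ) ≤ ((unc h).card : ℝ) ^ 2 / Fintype.card (β → ℤˣ) := by
  classical
  obtain ⟨v, hv⟩ := exists_shift (unc h)
  refine ⟨Fin.cons (fun b => if v b = 1 then 1 else 0) h, le_trans ?_ hv⟩
  have hsub : unc (Fin.cons (fun b => if v b = 1 then 1 else 0) h : Fin (d + 1) → β → ℕ) ⊆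
      (unc h).filter fun g => v * g ∈ unc h := by
    intro g hg
    rw [mem_unc] at hg
    rw [mem_filter, mem_unc, mem_unc]
    constructor
    · rintro ⟨t, ht⟩
      refine hg ⟨Fin.cons 0 t, ?_⟩
      rw [psi_cons, ht]
      funext b
      simp [sg]
    · rintro ⟨t, ht⟩
      refine hg ⟨Fin.cons 1 t, ?_⟩
      rw [psi_cons, ht]
      funext b
      rcases Int.units_eq_one_or (v b) with hb | hb <;> simp [sg, hb]
  exact_mod_cast Finset.card_le_card hsub

lemma steps {β : Type} [Fintype β] [DecidableEq β] {d : ℕ} (h : Fin d → β → ℕ) (θ : ℝ)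
    (hθ : ((unc h).card : ℝ) ≤ Fintype.card (β → ℤˣ) * θ) (k : ℕ) :
    ∃ h' : Fin (d + k) → β → ℕ,
      ((unc h').card : ℝ) ≤ Fintype.card (β → ℤˣ) * θ ^ (2 ^ k) := by
  have hpos : (0 : ℝ) < Fintype.card (β → ℤˣ) := by exact_mod_cast Fintype.card_pos
  induction k with
  | zero => exact ⟨h, by simpa using hθ⟩
  | succ k ih =>
    obtain ⟨h1, hh1⟩ := ih
    obtain ⟨h2, hh2⟩ := step h1
    refine ⟨h2, hh2.trans ?_⟩
    rw [div_le_iff₀ hpos]
    calc ((unc h1).card : ℝ) ^ 2 ≤ (Fintype.card (β → ℤˣ) * θ ^ (2 ^ k)) ^ 2 := by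
          gcongr
      _ = Fintype.card (β → ℤˣ) * θ ^ (2 ^ (k + 1)) * Fintype.card (β → ℤˣ) := by
          rw [pow_succ 2 k, pow_mul]; ring

/-- real sign -/
noncomputable def rs (u t : ℕ) : ℝ := ((sg u t : ℤ) : ℝ)

lemma sum_rs (M s s' : ℕ) (hs : s ≤ 2 * M) (hs' : s' ≤ 2 * M) :
    ∑ u ∈ range (2 * M), rs u s * rs u s' = 2 * M - 2 * |(s : ℝ) - s'| := by
  wlog hle : s ≤ s' generalizing s s'
  · have := this s' s hs' hs (by omega)
    rw [abs_sub_comm]
    simp_rw [mul_comm (rs _ s)]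
    exact this
  have h1 : ∀ u, rs u s * rs u s' = 1 - 2 * (if u ∈ Ico s s' then (1 : ℝ) else 0) := by
    intro u
    unfold rs sg
    by_cases a : u < s
    · have b : u < s' := by omega
      have c : ¬ s ≤ u := by omega
      simp [a, b, c]
    · have c : s ≤ u := by omega
      by_cases b : u < s'
      · simp [a, b, c]; norm_num
      · simp [a, b]
  simp_rw [h1]
  rw [Finset.sum_sub_distrib, ← Finset.mul_sum, Finset.sum_ite_mem]
  have h2 : range (2 * M) ∩ Ico s s' = Ico s s' := by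
    ext u; simp; omega
  have h3 : (s : ℝ) ≤ s' := by exact_mod_cast hle
  rw [h2, abs_sub_comm, abs_of_nonneg (by linarith)]
  simp [Nat.cast_sub hle]

lemma ind_eq (u v : ℤˣ) : (if u = v then (1 : ℝ) else 0) = (1 + ((u : ℤ) : ℝ) * ((v : ℤ) : ℝ)) / 2 := by
  rcases Int.units_eq_one_or u with hu | hu <;> rcases Int.units_eq_one_or v with hv | hv <;>
    simp [hu, hv]

/-- the correlation of two thresholds -/
noncomputable def mu (M : ℕ) (s s' : Fin M) : ℝ := 1 - |((s : ℕ) : ℝ) - (s' : ℕ)| / M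

/-- mean of the `k`-th power of the correlation, times `M ^ 2` -/
noncomputable def lam (M k : ℕ) : ℝ := ∑ p : Fin M × Fin M, mu M p.1 p.2 ^ k

open Classical in
lemma avg_coll {β : Type} [Fintype β] [DecidableEq β] (M d : ℕ) (hM : 0 < M)
    (t t' : Fin d → Fin M) :
    ∑ g : β → Fin d → Fin (2 * M),
      (if psi (fun i b => (g b i : ℕ)) (fun i => (t i : ℕ)) =
        psi (fun i b => (g b i : ℕ)) (fun i => (t' i : ℕ)) then (1 : ℝ) else 0) =
      ((2 * M : ℝ) ^ d * (1 + ∏ i, mu M (t i) (t' i)) / 2) ^ Fintype.card β := by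
  have h1 : ∀ g : β → Fin d → Fin (2 * M),
      (if psi (fun i b => (g b i : ℕ)) (fun i => (t i : ℕ)) =
        psi (fun i b => (g b i : ℕ)) (fun i => (t' i : ℕ)) then (1 : ℝ) else 0) =
      ∏ b, (1 + ∏ i, rs (g b i) (t i) * rs (g b i) (t' i)) / 2 := by
    intro g
    have : ∀ b, (1 + ∏ i, rs (g b i) (t i) * rs (g b i) (t' i)) / 2 =
        if psi (fun i b => (g b i : ℕ)) (fun i => (t i : ℕ)) b =
          psi (fun i b => (g b i : ℕ)) (fun i => (t' i : ℕ)) b then (1 : ℝ) else 0 := by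
      intro b
      rw [ind_eq, Finset.prod_mul_distrib]
      simp [psi, rs]
    simp_rw [this]
    rw [Finset.prod_ite_zero]
    simp [funext_iff]
  simp_rw [h1]
  rw [← Fintype.piFinset_univ, ← Finset.prod_univ_sum (fun _ : β => (univ : Finset (Fin d → Fin (2 * M))))
    (fun _ w => (1 + ∏ i, rs (w i) (t i) * rs (w i) (t' i)) / 2)]
  rw [Finset.prod_const, card_univ]
  congr 1
  rw [← Finset.sum_div, Finset.sum_add_distrib]
  congr 1
  rw [← Fintype.piFinset_univ, ← Finset.prod_univ_sum (fun _ : Fin d => (univ : Finset (Fin (2 * M))))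
    (fun i u => rs u (t i) * rs u (t' i))]
  have h2 : ∀ i, ∑ u : Fin (2 * M), rs u (t i) * rs u (t' i) = 2 * M * mu M (t i) (t' i) := by
    intro i
    rw [Fin.sum_univ_eq_sum_range (fun u => rs u (t i) * rs u (t' i)),
      sum_rs M _ _ (by have := (t i).2; omega) (by have := (t' i).2; omega)]
    have : (M : ℝ) ≠ 0 := by exact_mod_cast hM.ne'
    unfold mu
    field_simp
  simp_rw [h2]
  rw [Finset.prod_mul_distrib]
  simp [mul_add]

lemma sum_pow_expand (M d n : ℕ) :
    ∑ p : (Fin d → Fin M) × (Fin d → Fin M), (1 + ∏ i, mu M (p.1 i) (p.2 i)) ^ n =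
      ∑ k ∈ range (n + 1), (n.choose k : ℝ) * lam M k ^ d := by
  have h1 : ∀ x : ℝ, (1 + x) ^ n = ∑ k ∈ range (n + 1), (n.choose k : ℝ) * x ^ k := by
    intro x
    rw [add_comm, add_pow]
    simp [mul_comm]
  simp_rw [h1]
  rw [Finset.sum_comm]
  refine Finset.sum_congr rfl fun k _ => ?_
  rw [← Finset.mul_sum]
  congr 1
  simp_rw [← Finset.prod_pow]
  rw [lam, ← Fin.prod_const, Finset.prod_univ_sum, Fintype.piFinset_univ]
  exact Fintype.sum_equiv (Equiv.arrowProdEquivProdArrow (Fin d) (fun _ => Fin M)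
    (fun _ => Fin M)).symm _ _ (fun p => by simp [Equiv.arrowProdEquivProdArrow])

/-- the normalised second moment -/
noncomputable def SS (M d n : ℕ) : ℝ :=
  ∑ k ∈ range (n + 1), (n.choose k : ℝ) * (lam M k / (M : ℝ) ^ 2) ^ d

lemma mu_nonneg (M : ℕ) (s s' : Fin M) : 0 ≤ mu M s s' := by
  have h1 : ((s : ℕ) : ℝ) < M := by exact_mod_cast s.2
  have h2 : ((s' : ℕ) : ℝ) < M := by exact_mod_cast s'.2
  have h3 : (0 : ℝ) ≤ (s : ℕ) := by positivity
  have h4 : (0 : ℝ) ≤ (s' : ℕ) := by positivity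
  have hM : (0 : ℝ) < M := by linarith
  unfold mu
  rw [sub_nonneg, div_le_one hM, abs_le]
  constructor <;> linarith

lemma mu_le_one (M : ℕ) (s s' : Fin M) : mu M s s' ≤ 1 := by
  unfold mu
  have : 0 ≤ |((s : ℕ) : ℝ) - (s' : ℕ)| / M := by positivity
  linarith

lemma lam_nonneg (M k : ℕ) : 0 ≤ lam M k :=
  Finset.sum_nonneg fun _ _ => pow_nonneg (mu_nonneg _ _ _) _

lemma lam_le (M k : ℕ) : lam M k ≤ (M : ℝ) ^ 2 := by
  calc lam M k ≤ ∑ _p : Fin M × Fin M, (1 : ℝ) :=
        Finset.sum_le_sum fun p _ => pow_le_one₀ (mu_nonneg _ _ _) (mu_le_one _ _ _)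
    _ = (M : ℝ) ^ 2 := by simp [sq]

lemma one_le_SS (M d n : ℕ) (hM : 0 < M) : 1 ≤ SS M d n := by
  have hM' : (M : ℝ) ≠ 0 := by exact_mod_cast hM.ne'
  have h0 : lam M 0 = (M : ℝ) ^ 2 := by simp [lam, sq]
  have := Finset.single_le_sum (s := range (n + 1))
    (f := fun k => (n.choose k : ℝ) * (lam M k / (M : ℝ) ^ 2) ^ d)
    (fun k _ => by have := lam_nonneg M k; positivity) (a := 0) (by simp)
  simpa [h0, hM', SS] using this

open Classical in
lemma exists_first {β : Type} [Fintype β] [DecidableEq β] (M d : ℕ) (hM : 0 < M) :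
    ∃ h : Fin d → β → ℕ, ((unc h).card : ℝ) ≤
      Fintype.card (β → ℤˣ) * (1 - 1 / SS M d (Fintype.card β)) := by
  set n := Fintype.card β with hn
  have hM' : (0 : ℝ) < M := by exact_mod_cast hM
  have : Nonempty (Fin M) := ⟨⟨0, hM⟩⟩
  have : Nonempty (Fin (2 * M)) := ⟨⟨0, by omega⟩⟩
  set F : (β → Fin d → Fin (2 * M)) → (Fin d → Fin M) → β → ℤˣ :=
    fun g t => psi (fun i b => (g b i : ℕ)) (fun i => (t i : ℕ)) with hF
  set coll : (β → Fin d → Fin (2 * M)) → ℝ :=
    fun g => ∑ p : (Fin d → Fin M) × (Fin d → Fin M), if F g p.1 = F g p.2 then (1 : ℝ) else 0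
    with hcoll
  have hS := one_le_SS M d n hM
  have htot : ∑ g, coll g = ∑ _g : β → Fin d → Fin (2 * M),
      ((M : ℝ) ^ d) ^ 2 * SS M d n / 2 ^ n := by
    simp only [hcoll, hF]
    rw [Finset.sum_comm]
    simp_rw [avg_coll M d hM, div_pow, mul_pow]
    rw [← Finset.sum_div, ← Finset.mul_sum, ← hn, sum_pow_expand]
    rw [Finset.sum_const, card_univ, nsmul_eq_mul]
    simp only [Fintype.card_fun, Fintype.card_fin, ← hn]
    have : ((M : ℝ) ^ d) ^ 2 * SS M d n =
        ∑ k ∈ range (n + 1), (n.choose k : ℝ) * lam M k ^ d := by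
      rw [SS, Finset.mul_sum]
      refine Finset.sum_congr rfl fun k _ => ?_
      rw [div_pow, ← pow_mul, ← pow_mul, mul_comm d 2]
      field_simp
    rw [this]
    push_cast
    rw [mul_pow, mul_pow]
    ring
  obtain ⟨g, -, hg⟩ := Finset.exists_le_of_sum_le univ_nonempty htot.le
  refine ⟨fun i b => (g b i : ℕ), ?_⟩
  set C : Finset (β → ℤˣ) := univ.image (F g) with hC
  have hcs : ((M : ℝ) ^ d) ^ 2 ≤ C.card * coll g := by
    have h1 : (M : ℝ) ^ d = ∑ c ∈ C, ((univ.filter fun t => F g t = c).card : ℝ) := by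
      have := Finset.card_eq_sum_card_image (F g) univ
      simp only [card_univ, Fintype.card_fun, Fintype.card_fin] at this
      exact_mod_cast this
    have h2 : coll g = ∑ c ∈ C, ((univ.filter fun t => F g t = c).card : ℝ) ^ 2 := by
      simp only [hcoll]
      rw [Fintype.sum_prod_type]
      have h3 : ∀ t, (∑ t', if F g t = F g t' then (1 : ℝ) else 0) =
          ((univ.filter fun t' => F g t' = F g t).card : ℝ) := by
        intro t
        rw [Finset.card_filter]
        push_cast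
        exact Finset.sum_congr rfl fun t' _ => by simp [eq_comm]
      simp_rw [h3]
      rw [← Finset.sum_fiberwise_of_maps_to (s := univ) (t := C) (g := F g)
        (fun t _ => mem_image_of_mem _ (mem_univ t))]
      refine Finset.sum_congr rfl fun c _ => ?_
      rw [Finset.sum_congr rfl (g := fun _ => ((univ.filter fun t => F g t = c).card : ℝ))
        (fun t ht => by rw [(mem_filter.1 ht).2])]
      simp [sq]
    rw [h1, h2]
    exact sq_sum_le_card_mul_sum_sq
  have hcard : (Fintype.card (β → ℤˣ) : ℝ) = 2 ^ n := by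
    simp [hn, Fintype.card_units_int]
  have hC2 : (2 : ℝ) ^ n / SS M d n ≤ C.card := by
    rw [div_le_iff₀ (by linarith)]
    have h5 : ((M : ℝ) ^ d) ^ 2 ≤ C.card * (((M : ℝ) ^ d) ^ 2 * SS M d n / 2 ^ n) :=
      hcs.trans (by gcongr)
    have hp : (0 : ℝ) < ((M : ℝ) ^ d) ^ 2 := by positivity
    rw [← mul_div_assoc, le_div_iff₀ (by positivity)] at h5
    nlinarith
  have hsub : unc (fun i b => (g b i : ℕ)) ⊆ univ \ C := by
    intro c hc
    rw [mem_unc] at hc
    simp only [hC, mem_sdiff, mem_univ, mem_image, true_and]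
    rintro ⟨t, ht⟩
    exact hc ⟨_, ht⟩
  have h6 := Finset.card_le_card hsub
  rw [Finset.card_sdiff_of_subset (subset_univ _), card_univ] at h6
  have h7 : C.card ≤ Fintype.card (β → ℤˣ) := card_le_univ _
  have h8 : ((unc (fun i b => (g b i : ℕ))).card : ℝ) ≤ Fintype.card (β → ℤˣ) - C.card := by
    rw [← Nat.cast_sub h7]; exact_mod_cast h6
  rw [hcard] at h8 ⊢
  rw [mul_sub, mul_one, mul_one_div]
  linarith

theorem cover {β : Type} [Fintype β] [DecidableEq β] (M d k : ℕ) (hM : 0 < M)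
    (hk : (Fintype.card β + 1) * SS M d (Fintype.card β) ≤ 2 ^ k) :
    ∃ h : Fin (d + k) → β → ℕ, ∀ g : β → ℤˣ, ∃ t, psi h t = g := by
  obtain ⟨h0, hh0⟩ := exists_first (β := β) M d hM
  obtain ⟨h, hh⟩ := steps h0 _ hh0 k
  refine ⟨h, fun g => ?_⟩
  set n := Fintype.card β with hn
  have hS := one_le_SS M d n hM
  have hcard : (Fintype.card (β → ℤˣ) : ℝ) = 2 ^ n := by
    simp [hn, Fintype.card_units_int]
  have h1 : (1 - 1 / SS M d n) ^ (2 ^ k) ≤ Real.exp (-((n : ℝ) + 1)) := by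
    have h2 : 1 - 1 / SS M d n ≤ Real.exp (-(1 / SS M d n)) := by
      have := Real.add_one_le_exp (-(1 / SS M d n)); linarith
    have h3 : 0 ≤ 1 - 1 / SS M d n := by
      rw [sub_nonneg, div_le_one (by linarith)]; exact hS
    calc (1 - 1 / SS M d n) ^ (2 ^ k) ≤ Real.exp (-(1 / SS M d n)) ^ (2 ^ k) := by gcongr
      _ = Real.exp (-(2 ^ k / SS M d n)) := by
          rw [← Real.exp_nat_mul]; congr 1; push_cast; ring
      _ ≤ Real.exp (-((n : ℝ) + 1)) := by
          rw [Real.exp_le_exp, neg_le_neg_iff, le_div_iff₀ (by linarith)]; exact hk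
  have h4 : (2 : ℝ) ^ n * Real.exp (-((n : ℝ) + 1)) < 1 := by
    have h5 : (2 : ℝ) ^ n ≤ Real.exp n := by
      rw [← mul_one (n : ℝ), Real.exp_nat_mul]
      have := Real.add_one_le_exp 1
      gcongr; linarith
    rw [Real.exp_neg, mul_inv_lt_iff₀ (Real.exp_pos _), one_mul]
    exact h5.trans_lt (Real.exp_lt_exp.2 (by linarith))
  have h6 : ((unc h).card : ℝ) < 1 := by
    rw [hcard] at hh
    calc ((unc h).card : ℝ) ≤ _ := hh
      _ ≤ (2 : ℝ) ^ n * Real.exp (-((n : ℝ) + 1)) := by gcongr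
      _ < 1 := h4
  have h7 : unc h = ∅ := by
    rw [← Finset.card_eq_zero]
    have : (unc h).card < 1 := by exact_mod_cast h6
    omega
  by_contra hc
  have := (mem_unc h g).2 hc
  simp [h7] at this

end Pool.Agent.H547Z.BDim
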